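import Pool.Agent.H741.EL.Stm
import Pool.Graph.R_seed8.Y508.PerimUp
import Pool.Graph.R_pool_sql_team_seeded_707910d6.T2H01.QI.SUPB
import Pool.Graph.R_pool_sql_team_seeded_707910d6.T2H01.QI.ARE
import Pool.Graph.R_pool_sql_team_seeded_707910d6.T2H01.QI.ORT
import Pool.Graph.R_pool_sql_team_seeded_707910d6.T2H01.QI.WIR
import Pool.Graph.R_pool_sql_team_seeded_707910d6.T2H01.QI.QTR
import Pool.Graph.R_pool_sql_team_seeded_707910d6.T2H01.QI.TRI
import Pool.Graph.R_pool_sql_team_seeded_707910d6.T2H01.QI.COV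

/-!
# Project EL: the isoperimetric inequality for convex bodies with the case of equality (helper268)
-/

set_option autoImplicit false
open MeasureTheory Metric Set Filter Topology

namespace Pool.Agent.H268.EL
open Pool.Agent.Y508 Pool.Agent.H741.EL

theorem supb : Pool.Agent.T2H01.QI.S_SUPB :=
  Pool.Agent.T2H01.QI.pSUPB (Pool.Agent.T2H01.QI.pARE Pool.Agent.T2H01.QI.pTRI Pool.Agent.T2H01.QI.pCOV
    Pool.Agent.T2H01.QI.pQTR) (Pool.Agent.T2H01.QI.pORT Pool.Agent.T2H01.QI.pQTR) Pool.Agent.T2H01.QI.pWIR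

theorem hs_int {K : Set E2} (hK : Body K) (θ : ℝ) :
    Pool.Agent.T2H01.QI.hs (interior K) (Pool.Agent.T2H01.QI.dir θ) = hs K θ := by
  have hfun : (fun x : E2 => inner ℝ x (Pool.Agent.T2H01.QI.dir θ)) = fun x : E2 => ip x θ := by
    funext x
    exact inner_ev x θ
  unfold Pool.Agent.T2H01.QI.hs
  rw [hfun]
  have hbdd : BddAbove ((fun x : E2 => ip x θ) '' K) := (hK.cpt.image (cont_in θ)).bddAbove
  have hbdd' : BddAbove ((fun x : E2 => ip x θ) '' interior K) := hbdd.mono (image_mono interior_subset)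
  apply le_antisymm
  · exact csSup_le_csSup hbdd (hK.int.image _) (image_mono interior_subset)
  · refine csSup_le (hK.ne.image _) ?_
    rintro _ ⟨x, hx, rfl⟩
    have hcl : x ∈ closure (interior K) := by
      rw [hK.cvx.closure_interior_eq_closure_of_nonempty_interior hK.int]
      exact subset_closure hx
    have h1 : closure (interior K) ⊆ {y : E2 | ip y θ ≤ sSup ((fun x : E2 => ip x θ) '' interior K)} := by
      apply closure_minimal
      · intro y hy
        exact le_csSup hbdd' (mem_image_of_mem _ hy)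
      · exact isClosed_le (cont_in θ) continuous_const
    exact h1 hcl

theorem vol_int {K : Set E2} (hK : Body K) : volume.real (interior K) = volume.real K := by
  apply measureReal_congr
  exact interior_ae_eq_of_null_frontier (hK.cvx.addHaar_frontier volume)

/-- the mean -/
noncomputable def rN (K : Set E2) (N : ℕ) : ℝ := (∑ j ∈ Finset.range N, hs K (2 * Real.pi * j / N)) / N

/-- the error -/
noncomputable def eN (K : Set E2) (N : ℕ) : ℝ :=
  25 * (N * Real.tan (Real.pi / N) * rN K N ^ 2 - volume.real K)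

theorem supb' {K : Set E2} (hK : Body K) {N : ℕ} (hN : 5 ≤ N) : ∃ a : E2, ∀ j < N,
    (hs K (2 * Real.pi * j / N) - rN K N - ip a (2 * Real.pi * j / N)) ^ 2 ≤ eN K N := by
  obtain ⟨a, ha⟩ := supb (interior K) isOpen_interior (hK.cpt.isBounded.subset interior_subset) hK.int N hN
  refine ⟨a, fun j hj => ?_⟩
  have h1 := ha j hj
  have h2 : ∀ j, Pool.Agent.T2H01.QI.hs (interior K) (Pool.Agent.T2H01.QI.nd N j) = hs K (2 * Real.pi * j / N) :=
    fun j => hs_int hK _
  have h3 : inner ℝ a (Pool.Agent.T2H01.QI.nd N j) = ip a (2 * Real.pi * j / N) := inner_ev _ _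
  simp only [h2, h3, vol_int hK] at h1
  exact h1

theorem rN_lim {K : Set E2} (hK : Body K) : Tendsto (rN K) atTop (𝓝 (W K / (2 * Real.pi))) := by
  have h1 := (riemann (cont_hs hK.cpt)).div_const (2 * Real.pi)
  refine h1.congr fun n => ?_
  unfold rN
  have hpi := Real.pi_ne_zero
  rcases Nat.eq_zero_or_pos n with rfl | hn
  · simp
  · have hn' : (n : ℝ) ≠ 0 := by exact_mod_cast hn.ne'
    field_simp

theorem tan_lim' : Tendsto (fun n : ℕ => (n : ℝ) * Real.tan (Real.pi / n)) atTop (𝓝 Real.pi) := by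
  have h1 := tan_lim.mul_const Real.pi
  rw [one_mul] at h1
  refine h1.congr' ?_
  filter_upwards [eventually_gt_atTop 0] with n hn
  have hn' : (n : ℝ) ≠ 0 := by exact_mod_cast hn.ne'
  have hpi := Real.pi_ne_zero
  field_simp

theorem eN_lim {K : Set E2} (hK : Body K) :
    Tendsto (eN K) atTop (𝓝 (25 * (Real.pi * (W K / (2 * Real.pi)) ^ 2 - volume.real K))) :=
  ((tan_lim'.mul ((rN_lim hK).pow 2)).sub_const _).const_mul 25

theorem iso_ineq {K : Set E2} (hK : Body K) : 4 * Real.pi * volume.real K ≤ W K ^ 2 := by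
  have h1 : 0 ≤ 25 * (Real.pi * (W K / (2 * Real.pi)) ^ 2 - volume.real K) := by
    refine ge_of_tendsto (eN_lim hK) ?_
    filter_upwards [eventually_ge_atTop 5] with N hN
    obtain ⟨a, ha⟩ := supb' hK hN
    exact (sq_nonneg _).trans (ha 0 (by omega))
  have hpi := Real.pi_pos
  have h2 : Real.pi * (W K / (2 * Real.pi)) ^ 2 = W K ^ 2 / (4 * Real.pi) := by
    field_simp
    ring
  rw [h2] at h1
  have h3 : volume.real K ≤ W K ^ 2 / (4 * Real.pi) := by linarith
  rw [le_div_iff₀ (by positivity)] at h3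
  linarith

/-- the candidate for the centre -/
noncomputable def cen (K : Set E2) : E2 :=
  pt ((hs K 0 - hs K Real.pi) / 2) ((hs K (Real.pi / 2) - hs K (3 * Real.pi / 2)) / 2)

theorem near {K : Set E2} (hK : Body K) {m : ℕ} (hm : 2 ≤ m) {j : ℕ} (hj : j < 4 * m) :
    |hs K (2 * Real.pi * j / (4 * m : ℕ)) - rN K (4 * m) - ip (cen K) (2 * Real.pi * j / (4 * m : ℕ))| ≤
      3 * Real.sqrt (eN K (4 * m)) := by
  obtain ⟨a, ha⟩ := supb' hK (N := 4 * m) (by omega)
  have hm0 : (m : ℝ) ≠ 0 := by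
    have : m ≠ 0 := by omega
    exact_mod_cast this
  have key : ∀ j < 4 * m, |hs K (2 * Real.pi * j / (4 * m : ℕ)) - rN K (4 * m) -
      ip a (2 * Real.pi * j / (4 * m : ℕ))| ≤ Real.sqrt (eN K (4 * m)) :=
    fun j hj => Real.abs_le_sqrt (ha j hj)
  have k0 := key 0 (by omega)
  have k1 := key m (by omega)
  have k2 := key (2 * m) (by omega)
  have k3 := key (3 * m) (by omega)
  have e0 : 2 * Real.pi * (0 : ℕ) / (4 * m : ℕ) = 0 := by simp
  have e1 : 2 * Real.pi * (m : ℕ) / (4 * m : ℕ) = Real.pi / 2 := by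
    push_cast
    field_simp
    ring
  have e2 : 2 * Real.pi * (2 * m : ℕ) / (4 * m : ℕ) = Real.pi := by
    push_cast
    field_simp
    ring
  have e3 : 2 * Real.pi * (3 * m : ℕ) / (4 * m : ℕ) = 3 * Real.pi / 2 := by
    push_cast
    field_simp
    ring
  rw [e0] at k0
  rw [e1] at k1
  rw [e2] at k2
  rw [e3] at k3
  have i0 : ip a 0 = a 0 := by simp [ip]
  have i1 : ip a (Real.pi / 2) = a 1 := by simp [ip]
  have i2 : ip a Real.pi = -a 0 := by simp [ip]
  have i3 : ip a (3 * Real.pi / 2) = -a 1 := by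
    have : 3 * Real.pi / 2 = Real.pi / 2 + Real.pi := by ring
    rw [this, ip_add_pi, i1]
  rw [i0] at k0
  rw [i1] at k1
  rw [i2] at k2
  rw [i3] at k3
  obtain ⟨s, hs'⟩ : ∃ s : ℝ, s = Real.sqrt (eN K (4 * m)) := ⟨_, rfl⟩
  rw [← hs'] at k0 k1 k2 k3 key ⊢
  have hx : |(cen K) 0 - a 0| ≤ s := by
    have : (cen K) 0 = (hs K 0 - hs K Real.pi) / 2 := rfl
    rw [this]
    rw [abs_le] at k0 k2 ⊢
    constructor <;> linarith [k0.1, k0.2, k2.1, k2.2]
  have hy : |(cen K) 1 - a 1| ≤ s := by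
    have : (cen K) 1 = (hs K (Real.pi / 2) - hs K (3 * Real.pi / 2)) / 2 := rfl
    rw [this]
    rw [abs_le] at k1 k3 ⊢
    constructor <;> linarith [k1.1, k1.2, k3.1, k3.2]
  obtain ⟨θ, hθ⟩ : ∃ θ : ℝ, θ = 2 * Real.pi * j / (4 * m : ℕ) := ⟨_, rfl⟩
  have hk := key j hj
  rw [← hθ] at hk ⊢
  have hd : |ip (cen K) θ - ip a θ| ≤ 2 * s := by
    have h1 : ip (cen K) θ - ip a θ = ((cen K) 0 - a 0) * Real.cos θ + ((cen K) 1 - a 1) * Real.sin θ := by
      simp only [ip]
      ring
    have h2 : |((cen K) 0 - a 0) * Real.cos θ| ≤ s := by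
      rw [abs_mul]
      calc _ ≤ |(cen K) 0 - a 0| * 1 := mul_le_mul_of_nonneg_left (Real.abs_cos_le_one θ) (abs_nonneg _)
        _ ≤ s := by rw [mul_one]; exact hx
    have h3 : |((cen K) 1 - a 1) * Real.sin θ| ≤ s := by
      rw [abs_mul]
      calc _ ≤ |(cen K) 1 - a 1| * 1 := mul_le_mul_of_nonneg_left (Real.abs_sin_le_one θ) (abs_nonneg _)
        _ ≤ s := by rw [mul_one]; exact hy
    rw [h1]
    exact (abs_add_le _ _).trans (by linarith)
  have h4 : hs K θ - rN K (4 * m) - ip (cen K) θ = (hs K θ - rN K (4 * m) - ip a θ) - (ip (cen K) θ - ip a θ) := by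
    ring
  rw [h4]
  refine (abs_sub _ _).trans ?_
  linarith

theorem t_ISO : S_ISO := by
  intro K hK
  refine ⟨iso_ineq hK, fun heq => ?_⟩
  have hpi := Real.pi_pos
  obtain ⟨R, hR⟩ : ∃ R : ℝ, R = W K / (2 * Real.pi) := ⟨_, rfl⟩
  refine ⟨cen K, ?_⟩
  rw [← hR]
  have hfour : Tendsto (fun m : ℕ => 4 * m) atTop atTop := by
    refine tendsto_atTop_mono (fun m => ?_) tendsto_id
    show m ≤ 4 * m
    omega
  have hr := (rN_lim hK).comp hfour
  rw [← hR] at hr
  have he : Tendsto (fun m : ℕ => 3 * Real.sqrt (eN K (4 * m))) atTop (𝓝 0) := by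
    have h1 := ((eN_lim hK).comp hfour)
    have h2 : 25 * (Real.pi * (W K / (2 * Real.pi)) ^ 2 - volume.real K) = 0 := by
      have h3 : Real.pi * (W K / (2 * Real.pi)) ^ 2 = W K ^ 2 / (4 * Real.pi) := by
        field_simp
        ring
      rw [h3, heq]
      field_simp
      ring
    rw [h2] at h1
    have h4 := (Real.continuous_sqrt.tendsto 0).comp h1
    rw [Real.sqrt_zero] at h4
    have h5 := h4.const_mul 3
    rw [mul_zero] at h5
    exact h5
  -- the support function on `[0, 2π)`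
  have h1 : ∀ θ ∈ Ico (0 : ℝ) (2 * Real.pi), hs K θ - R - ip (cen K) θ = 0 := by
    intro θ hθ
    have hθ1 := hθ.1
    have hθ2 := hθ.2
    let jj : ℕ → ℕ := fun m => ⌊θ * (4 * m : ℕ) / (2 * Real.pi)⌋₊
    let tt : ℕ → ℝ := fun m => 2 * Real.pi * jj m / (4 * m : ℕ)
    have hjj : ∀ m : ℕ, 2 ≤ m → jj m < 4 * m ∧ |tt m - θ| ≤ 2 * Real.pi / (4 * m : ℕ) := by
      intro m hm
      have hm0 : (0 : ℝ) < (4 * m : ℕ) := by
        have : 0 < 4 * m := by omega
        exact_mod_cast this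
      have h0 : 0 ≤ θ * (4 * m : ℕ) / (2 * Real.pi) := by positivity
      have h2 := Nat.floor_le h0
      have h3 := Nat.lt_floor_add_one (θ * (4 * m : ℕ) / (2 * Real.pi))
      constructor
      · rw [Nat.floor_lt h0, div_lt_iff₀ (by positivity)]
        nlinarith
      · rw [le_div_iff₀ (by positivity)] at h2
        rw [div_lt_iff₀ (by positivity)] at h3
        have h4 : tt m ≤ θ := by
          show 2 * Real.pi * (jj m : ℝ) / (4 * m : ℕ) ≤ θ
          rw [div_le_iff₀ hm0]
          linarith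
        have h5 : θ - 2 * Real.pi / (4 * m : ℕ) ≤ tt m := by
          show _ ≤ 2 * Real.pi * (jj m : ℝ) / (4 * m : ℕ)
          rw [le_div_iff₀ hm0, sub_mul, div_mul_cancel₀ _ hm0.ne']
          have h6 : (⌊θ * (4 * m : ℕ) / (2 * Real.pi)⌋₊ : ℝ) = (jj m : ℝ) := rfl
          rw [h6] at h3
          linarith
        rw [abs_le]
        constructor <;> linarith
    have htt : Tendsto tt atTop (𝓝 θ) := by
      rw [tendsto_iff_norm_sub_tendsto_zero]
      have h2 : Tendsto (fun m : ℕ => 2 * Real.pi / ((4 * m : ℕ) : ℝ)) atTop (𝓝 0) :=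
        (tendsto_const_div_atTop_nhds_zero_nat (2 * Real.pi)).comp hfour
      refine squeeze_zero' (Eventually.of_forall fun m => norm_nonneg _) ?_ h2
      filter_upwards [eventually_ge_atTop 2] with m hm
      rw [Real.norm_eq_abs]
      exact (hjj m hm).2
    have h3 : Tendsto (fun m => |hs K (tt m) - rN K (4 * m) - ip (cen K) (tt m)|) atTop
        (𝓝 |hs K θ - R - ip (cen K) θ|) :=
      (((((cont_hs hK.cpt).tendsto θ).comp htt).sub hr).sub (((cont_ip (cen K)).tendsto θ).comp htt)).abs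
    have h4 : |hs K θ - R - ip (cen K) θ| ≤ 0 := by
      refine le_of_tendsto_of_tendsto h3 he ?_
      filter_upwards [eventually_ge_atTop 2] with m hm
      exact near hK hm (hjj m hm).1
    exact abs_nonpos_iff.1 h4
  have h2 : ∀ θ, hs K θ = R + ip (cen K) θ := by
    intro θ
    have hper : Function.Periodic (fun θ => hs K θ - R - ip (cen K) θ) (2 * Real.pi) := by
      intro θ
      show hs K (θ + 2 * Real.pi) - R - ip (cen K) (θ + 2 * Real.pi) = _
      rw [hs_two_pi, ip_two_pi]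
    obtain ⟨y, hy, hy'⟩ := hper.exists_mem_Ico₀ (by positivity) θ
    have h3 : hs K θ - R - ip (cen K) θ = 0 := by
      have : hs K θ - R - ip (cen K) θ = hs K y - R - ip (cen K) y := hy'
      rw [this]
      exact h1 y hy
    linarith
  have hR0 : 0 < R := by
    have h3 := width_pos hK 0
    rw [h2, h2, ip_add_pi] at h3
    linarith
  ext x
  rw [mem_closedBall, dist_eq_norm]
  constructor
  · intro hx
    by_cases h0 : x - cen K = 0
    · rw [h0, norm_zero]
      exact hR0.le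
    · obtain ⟨θ, hθ⟩ := exists_pos_ev _ h0
      have h3 : ip (x - cen K) θ = ‖x - cen K‖ := by
        have : ip (x - cen K) θ = ip (‖x - cen K‖ • ev θ) θ := by rw [← hθ]
        rw [this, ip_smul, ip_ev, sub_self, Real.cos_zero, mul_one]
      rw [← h3, ip_sub]
      have h4 := le_hs hK.cpt hx θ
      rw [h2] at h4
      linarith
  · intro hx
    refine mem_of_ip_le hK.cpt hK.cvx hK.ne fun θ => ?_
    rw [h2]
    have h3 := (le_abs_self _).trans (abs_ip_le (x - cen K) θ)
    rw [ip_sub] at h3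
    linarith

end Pool.Agent.H268.EL
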